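import Pool.Agent.P.MP_467638_an.Adapt

set_option autoImplicit false

open MeasureTheory Matrix Pool.Agent.P.MP_467638_an

namespace Pool.Agent.Results.MP_467638_an.Adaptive

theorem result : AdaptiveBound ℝ 1 ∧ AdaptiveBound ℂ 0 :=
  ⟨Ad.adaptiveBound ℝ 1 (by simp), Ad.adaptiveBound ℂ 0 (by simp)⟩

/-- The question as posed: the embedding is the random seed, and the supremum runs over more
inputs. -/
theorem posed_of {𝕜 : Type} [RCLike 𝕜] {α : ℕ} (h : AdaptiveBound 𝕜 α) : LowerBound 𝕜 α := by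
  intro n ℓ d p r _ hℓ hp hrd hr μ hμ _ ALG hALG
  obtain ⟨-, h0, -⟩ := exists_pinv hrd _ ((EuclideanSpace.orthonormal_single (𝕜 := 𝕜)).comp _
    (Fin.castLE_injective (show r ≤ n by omega))).linearIndependent
  refine (h n ℓ d p r hℓ hp hr _ h0 _ μ hμ (fun k z i => z.1 i k) (fun k => by fun_prop)
    (fun ω _ _ => Matrix.of ω) (fun _ _ _ _ _ => rfl) ALG hALG).trans
    (iSup_mono fun A => iSup_mono fun B => iSup_mono fun P => iSup_le fun ⟨h1, h2, h3⟩ =>
      le_iSup_of_le ⟨?_, h2, fun h4 => ?_⟩ ?_)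
  · open scoped ComplexOrder in
    rw [← rank_conjTranspose_mul_self, h1, rank_conjTranspose_mul_self, h0]
  · rw [← h4, sub_self] at h3
    simp [frobSq] at h3
  · rw [h3, ENNReal.ofReal_one, div_one]

theorem posed : LowerBound ℝ 1 ∧ LowerBound ℂ 0 := ⟨posed_of result.1, posed_of result.2⟩

/-- Every family of query rules generates an embedding, column by column. -/
theorem exists_embedding {𝕜 : Type} [RCLike 𝕜] {n ℓ : ℕ}
    (F : Fin ℓ → Matrix (Fin n) (Fin ℓ) 𝕜 → Fin n → 𝕜) :
    ∃ W : Matrix (Fin n) (Fin ℓ) 𝕜, ∀ i k, W i k = F k (firstCols k W) i := by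
  let V : ℕ → Matrix (Fin n) (Fin ℓ) 𝕜 := fun m =>
    Nat.rec 0 (fun k W => Matrix.of fun i j => if (j : ℕ) = k then F j W i else W i j) m
  have h1 : ∀ m i (j : Fin ℓ), V m i j = if (j : ℕ) < m then F j (V j) i else 0 := fun m i j => by
    induction m with
    | zero => rfl
    | succ m ih =>
      change (if (j : ℕ) = m then F j (V m) i else V m i j) = _
      rw [ih]
      split_ifs with a b c <;> first | rfl | omega | rw [a]
  refine ⟨V ℓ, fun i k => ?_⟩
  rw [h1, if_pos k.2]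
  congr 1
  ext i j
  rw [firstCols, of_apply, h1, h1 ℓ, if_pos j.2]

end Pool.Agent.Results.MP_467638_an.Adaptive
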