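import Pool.Agent.P.MP_467638_an.CvMain
import Pool.Agent.P.MP_467638_an.CvVal
import Pool.Agent.P.MP_467638_an.CvPos

set_option autoImplicit false

open MeasureTheory Matrix Pool.Agent.P.MP_467638_an
open scoped ENNReal

namespace Pool.Agent.Results.MP_467638_an.ConvexLoss

theorem result : ConvexBound ℝ 1 ∧ ConvexBound ℂ 0 := by
  have key : ∀ (𝕜 : Type) [RCLike 𝕜] (α : ℕ), AdaptiveBound 𝕜 α → ConvexBound 𝕜 α := by
    intro 𝕜 _ α hα n ℓ d p A₀ B₀ η hη h1 h2 pinv hp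
    refine ⟨fun L hL hc hU X _ μ hμ Ω hΩ ALG hALG => @Cv.core 𝕜 _ n ℓ d p A₀ B₀ L L hL hL hc hU η
      hη h1 h2 pinv hp X _ μ hμ Ω hΩ ALG hALG, fun r P₀ hA hr hP => ?_⟩
    obtain ⟨Q, hQ⟩ := h1.exists
    have h3 := (rank_mul_le_right (Matrix.of Q)ᴴ (Matrix.of Q)).trans (rank_le_height _)
    rw [hQ, rank_one, Fintype.card_fin] at h3
    exact @Cv.value 𝕜 _ n ℓ d p α hα r hr η hη h1 h2 A₀ hA B₀ P₀ hP h3 pinv hp
  exact ⟨key ℝ 1 (Ad.adaptiveBound ℝ 1 (by simp)), key ℂ 0 (Ad.adaptiveBound ℂ 0 (by simp))⟩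

/-- The question as posed follows from the result. -/
theorem posed : LowerBound ℝ 1 ∧ LowerBound ℂ 0 :=
  ⟨Cv.posed_of 1 result.1, Cv.posed_of 0 result.2⟩

variable {𝕜 : Type} [RCLike 𝕜] {n ℓ d p : ℕ}

/-- The hypotheses can be met: the law of the random orthonormal embedding and the pseudoinverse
exist. -/
theorem not_vacuous (h : ℓ ≤ n) :
    (∃ η : Measure (Fin n → Fin ℓ → 𝕜), IsProbabilityMeasure η ∧
      (∀ᵐ Q ∂η, (Matrix.of Q)ᴴ * Matrix.of Q = 1) ∧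
      ∀ U ∈ unitaryGroup (Fin n) 𝕜, η.map (fun Q => Matrix.of.symm (U * Matrix.of Q)) = η) ∧
    ∃ pinv : Matrix (Fin ℓ) (Fin d) 𝕜 → Matrix (Fin d) (Fin ℓ) 𝕜, ∀ M, IsPinv M (pinv M) :=
  ⟨Cv.exists_frame_law h, Classical.skolem.1 Cv.exists_pinv⟩

open scoped Matrix.Norms.L2Operator in
/-- Every power of order at least one of the spectral norm is an admissible loss. -/
theorem spectral_loss {q : ℝ} (hq : 1 ≤ q) :
    (Measurable fun E : Fin n → Fin p → 𝕜 => ENNReal.ofReal (‖Matrix.of E‖ ^ q)) ∧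
    (∀ E F : Matrix (Fin n) (Fin p) 𝕜, 2 * ENNReal.ofReal (‖E‖ ^ q) ≤
      ENNReal.ofReal (‖E + F‖ ^ q) + ENNReal.ofReal (‖E - F‖ ^ q)) ∧
    ∀ U ∈ unitaryGroup (Fin n) 𝕜, ∀ E : Matrix (Fin n) (Fin p) 𝕜,
      ENNReal.ofReal (‖U * E‖ ^ q) = ENNReal.ofReal (‖E‖ ^ q) := by
  refine ⟨?_, fun E F => ?_, fun U hU E => ?_⟩
  · have : Continuous fun E : Matrix (Fin n) (Fin p) 𝕜 => ‖E‖ := continuous_norm
    exact (this.measurable.pow_const q).ennreal_ofReal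
  · rw [two_mul_ofReal, ← ENNReal.ofReal_add (by positivity) (by positivity)]
    refine ENNReal.ofReal_le_ofReal ?_
    have a := (convexOn_rpow hq).2 (norm_nonneg (E + F)) (norm_nonneg (E - F))
      (show (0 : ℝ) ≤ 1 / 2 by norm_num) (show (0 : ℝ) ≤ 1 / 2 by norm_num) (by norm_num)
    have b := norm_add_le (E + F) (E - F)
    rw [add_add_sub_cancel, ← two_smul 𝕜, norm_smul, RCLike.norm_two] at b
    have c := Real.rpow_le_rpow (norm_nonneg E) (z := q)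
      (y := 1 / 2 * ‖E + F‖ + 1 / 2 * ‖E - F‖) (by linarith) (by linarith)
    simp only [smul_eq_mul] at a
    linarith
  · have a : Uᴴ * U = 1 := hU.1
    have b := l2_opNorm_conjTranspose_mul_self (U * E)
    rw [conjTranspose_mul, Matrix.mul_assoc, ← Matrix.mul_assoc Uᴴ, a, Matrix.one_mul,
      l2_opNorm_conjTranspose_mul_self, mul_self_inj (norm_nonneg _) (norm_nonneg _)] at b
    rw [b]

variable (A₀ : Matrix (Fin n) (Fin d) 𝕜) (B₀ : Matrix (Fin n) (Fin p) 𝕜)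
  (η : Measure (Fin n → Fin ℓ → 𝕜)) [hη : IsProbabilityMeasure η]
  (h1 : ∀ᵐ Q ∂η, (Matrix.of Q)ᴴ * Matrix.of Q = 1)
  (h2 : ∀ U ∈ unitaryGroup (Fin n) 𝕜, η.map (fun Q => Matrix.of.symm (U * Matrix.of Q)) = η)
  (pinv : Matrix (Fin ℓ) (Fin d) 𝕜 → Matrix (Fin d) (Fin ℓ) 𝕜) (hp : ∀ M, IsPinv M (pinv M))

include h1 h2 hp

/-- The bound is attained when the rank is at most the sketch size: sketch-and-solve with the
random orthonormal embedding has the same risk at every input of the orbit. -/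
theorem attained (hA : A₀.rank ≤ ℓ) (L : Matrix (Fin n) (Fin p) 𝕜 → ℝ≥0∞)
    (hL : Measurable fun E : Fin n → Fin p → 𝕜 => L (Matrix.of E))
    (hU : ∀ U ∈ unitaryGroup (Fin n) 𝕜, ∀ E, L (U * E) = L E)
    (A : Matrix (Fin n) (Fin d) 𝕜) (B : Matrix (Fin n) (Fin p) 𝕜)
    (h : ∃ U ∈ unitaryGroup (Fin n) 𝕜, ∃ Y : Matrix (Fin d) (Fin p) 𝕜,
      A = U * A₀ ∧ B = U * (B₀ + A₀ * Y)) :
    ∫⁻ Q, L (B - A * (pinv ((Matrix.of Q)ᴴ * A) * ((Matrix.of Q)ᴴ * B))) ∂η =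
      ∫⁻ Q, L (B₀ - A₀ * (pinv ((Matrix.of Q)ᴴ * A₀) * ((Matrix.of Q)ᴴ * B₀))) ∂η := by
  obtain ⟨U, hU', Y, rfl, rfl⟩ := h
  exact @Cv.attained 𝕜 _ n ℓ d p η hη h1 h2 A₀ hA B₀ L hL hU pinv hp U hU' Y

/-- Failure probabilities, up to the factor two: for a measurable, convex, unitarily invariant set
C of residuals, such as a ball of a unitarily invariant norm. -/
theorem tail (C : Set (Matrix (Fin n) (Fin p) 𝕜))
    (hC : MeasurableSet {E : Fin n → Fin p → 𝕜 | Matrix.of E ∈ C}) (hc : Convex ℝ C)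
    (hU : ∀ U ∈ unitaryGroup (Fin n) 𝕜, ∀ E, U * E ∈ C ↔ E ∈ C)
    (X : Type) [MeasurableSpace X] (μ : Measure X) [hμ : IsProbabilityMeasure μ]
    (Ω : X → Fin n → Fin ℓ → 𝕜) (hΩ : Measurable Ω)
    (ALG : X × (Fin n → Fin d → 𝕜) × (Fin ℓ → Fin p → 𝕜) → (Fin d → Fin p → 𝕜))
    (hALG : Measurable ALG) :
    η {Q | B₀ - A₀ * (pinv ((Matrix.of Q)ᴴ * A₀) * ((Matrix.of Q)ᴴ * B₀)) ∉ C} ≤
      ⨆ (A : Matrix (Fin n) (Fin d) 𝕜) (B : Matrix (Fin n) (Fin p) 𝕜)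
        (_ : ∃ U ∈ unitaryGroup (Fin n) 𝕜, ∃ Y : Matrix (Fin d) (Fin p) 𝕜,
          A = U * A₀ ∧ B = U * (B₀ + A₀ * Y)),
        2 * μ {ω | B - A * Matrix.of (ALG (ω, Matrix.of.symm A,
          Matrix.of.symm ((Matrix.of (Ω ω))ᴴ * B))) ∉ C} := by
  have hm : MeasurableSet Cᶜ := MeasurableSet.compl hC
  have m1 : Measurable fun Q : Matrix (Fin n) (Fin ℓ) 𝕜 => B₀ - A₀ * (pinv (Qᴴ * A₀) * (Qᴴ * B₀)) :=
    measurable_const.sub (Cv.meas_mul measurable_const (Cv.meas_mul ((Cv.meas_pinv hp).comp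
      (Cv.meas_mul (Cv.meas_conj measurable_id') measurable_const))
      (Cv.meas_mul (Cv.meas_conj measurable_id') measurable_const)))
  refine (lintegral_indicator_one (μ := η) (m1 hm)).ge.trans (le_trans (@Cv.core 𝕜 _ n ℓ d p A₀ B₀
    (Cᶜ.indicator 1) (Cᶜ.indicator fun _ => 2) (measurable_one.indicator hm)
    (measurable_const.indicator hm) (fun E F => ?_) (fun U hU' E => ?_) η hη h1 h2 pinv hp X _ μ hμ
    Ω hΩ ALG hALG) (iSup_mono fun A => iSup_mono fun B => iSup_mono fun _ =>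
      lintegral_indicator_const_le _ 2))
  · by_cases a : E + F ∈ C
    · by_cases b : E - F ∈ C
      · have := hc a b (a := 1 / 2) (b := 1 / 2) (by norm_num) (by norm_num) (by norm_num)
        rw [← smul_add, add_add_sub_cancel, ← two_smul ℝ, smul_smul] at this
        norm_num at this
        simp [this]
      · refine le_add_left ?_
        by_cases c : E ∈ C <;> simp [b, c]
    · refine le_add_right ?_
      by_cases c : E ∈ C <;> simp [a, c]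
  · by_cases c : E ∈ C <;> simp [c, hU U hU' E]

end Pool.Agent.Results.MP_467638_an.ConvexLoss
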