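import Pool.Agent.P.MP_467638_an.TlMean
import Pool.Agent.P.MP_467638_an.TlSharp

set_option autoImplicit false

open MeasureTheory ProbabilityTheory Matrix Pool.Agent.P.MP_467638_an Pool.Agent.P.MP_467638_an.Tl

namespace Pool.Agent.Results.MP_467638_an.MonotoneLoss

theorem result : TailBound ℝ ∧ TailBound ℂ := ⟨tailBound ℝ, tailBound ℂ⟩

/-- The question as posed: the identity loss, with the embedding as the random seed. -/
theorem posed_of {𝕜 : Type} [RCLike 𝕜] {α : ℕ} (hα : α + Module.finrank ℝ 𝕜 = 2)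
    (h : TailBound 𝕜) : LowerBound 𝕜 α := by
  intro n ℓ d p r _ hℓ hp hrd hr μ hμ hrank ALG hALG
  refine (mean_ge hα hℓ hr).trans ((h n ℓ d p r hℓ hp hrd (by omega) _ μ hμ id measurable_id hrank
    ALG hALG _ fun _ _ => ENNReal.ofReal_le_ofReal).trans (iSup_mono fun A => iSup_mono fun B =>
      iSup_mono fun P => iSup_mono fun hP => le_of_eq ?_))
  have h0 : 0 < frobSq (B - A * P * B) := by
    by_contra h1
    refine hP.2.2 (sub_eq_zero.1 (Matrix.ext fun i j => ?_))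
    have h2 : ‖(B - A * P * B) i j‖ ^ 2 ≤ frobSq (B - A * P * B) :=
      (Finset.single_le_sum (f := fun j => ‖(B - A * P * B) i j‖ ^ 2) (fun _ _ => sq_nonneg _)
        (Finset.mem_univ j)).trans (Finset.single_le_sum
          (f := fun i => ∑ j, ‖(B - A * P * B) i j‖ ^ 2)
          (fun _ _ => Finset.sum_nonneg fun _ _ => sq_nonneg _) (Finset.mem_univ i))
    exact norm_eq_zero.1 (pow_eq_zero_iff two_ne_zero |>.1
      (le_antisymm (h2.trans (not_lt.1 h1)) (sq_nonneg _)))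
  simp only [ENNReal.ofReal_div_of_pos h0, div_eq_mul_inv (G := ENNReal), id]
  exact lintegral_mul_const' _ _ (ENNReal.inv_ne_top.2 (ENNReal.ofReal_pos.2 h0).ne')

theorem posed : LowerBound ℝ 1 ∧ LowerBound ℂ 0 :=
  ⟨posed_of (by simp) result.1, posed_of (by simp) result.2⟩

/-- The bound is attained for one right-hand side: sketch-and-solve with the random orthonormal
embedding has this risk at every input. -/
theorem sharp {𝕜 : Type} [RCLike 𝕜] {n ℓ d r : ℕ} (hℓ : ℓ ≤ n) (hr : r < ℓ)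
    (η : Measure (Fin n → Fin ℓ → 𝕜)) [hη : IsProbabilityMeasure η]
    (h1 : ∀ᵐ Q ∂η, (Matrix.of Q)ᴴ * Matrix.of Q = 1)
    (h2 : ∀ U ∈ unitaryGroup (Fin n) 𝕜, η.map (fun Q => Matrix.of.symm (U * Matrix.of Q)) = η)
    (pinv : Matrix (Fin ℓ) (Fin d) 𝕜 → Matrix (Fin d) (Fin ℓ) 𝕜) (hp : ∀ M, IsPinv M (pinv M))
    (φ : ℝ → ENNReal) (hφ : Measurable φ) (A : Matrix (Fin n) (Fin d) 𝕜)
    (B : Matrix (Fin n) (Fin 1) 𝕜) (P : Matrix (Fin d) (Fin n) 𝕜)
    (h : A.rank = r ∧ IsPinv A P ∧ B ≠ A * P * B) :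
    ∫⁻ Q, φ (frobSq (B - A * (pinv ((Matrix.of Q)ᴴ * A) * ((Matrix.of Q)ᴴ * B))) /
        frobSq (B - A * P * B)) ∂η =
      ∫⁻ a : Fin r → EuclideanSpace 𝕜 (Fin n), ∫⁻ b, φ (ssRatio ℓ a b)
        ∂(stdGaussian (EuclideanSpace 𝕜 (Fin n)))
        ∂(Measure.pi fun _ : Fin r => stdGaussian (EuclideanSpace 𝕜 (Fin n))) :=
  @Tl.sharp 𝕜 _ n ℓ d r η hη h1 h2 hℓ hr pinv hp φ hφ A B P h

end Pool.Agent.Results.MP_467638_an.MonotoneLoss
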